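import Pool.Agent.L7h62.SQ.Stm2

set_option autoImplicit false

namespace Pool.Agent.L7h8.SQ

open Pool.Agent.L7h62.SQ

/-- odd or even powers of an element whose square lies in `N` -/
lemma mem_sup_zpowers {G : Type} [CommGroup G] (N : Subgroup G) (g : G) (hg : g ^ 2 ∈ N) (t : G)
    (ht : t ∈ N ⊔ Subgroup.zpowers g) : t ∈ N ∨ t * g⁻¹ ∈ N := by
  obtain ⟨n, hn, z, hz, rfl⟩ := Subgroup.mem_sup.1 ht
  obtain ⟨k, rfl⟩ := Subgroup.mem_zpowers_iff.1 hz
  rcases Int.even_or_odd' k with ⟨m, rfl | rfl⟩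
  · left
    rw [zpow_mul, show g ^ (2 : ℤ) = g ^ 2 from by norm_cast]
    exact N.mul_mem hn (N.zpow_mem hg m)
  · right
    rw [zpow_add, zpow_mul, show g ^ (2 : ℤ) = g ^ 2 from by norm_cast, zpow_one]
    have : n * ((g ^ 2) ^ m * g) * g⁻¹ = n * (g ^ 2) ^ m := by
      rw [mul_assoc, mul_assoc, mul_inv_cancel, mul_one]
    rw [this]
    exact N.mul_mem hn (N.zpow_mem hg m)

lemma exists_index_two {G : Type} [CommGroup G] [Finite G] (A : Subgroup G) (hA : ∀ g : G, g ^ 2 ∈ A)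
    (t : G) (ht : t ∉ A) : ∃ N : Subgroup G, A ≤ N ∧ N.index = 2 ∧ t ∉ N := by
  classical
  obtain ⟨N, hAN, hmax⟩ : ∃ N : Subgroup G, (A ≤ N ∧ t ∉ N) ∧
      ∀ M : Subgroup G, A ≤ M → t ∉ M → N ≤ M → M = N := by
    have hfin : {N : Subgroup G | A ≤ N ∧ t ∉ N}.Finite := Set.toFinite _
    obtain ⟨N, hN⟩ := hfin.exists_maximal ⟨A, le_refl _, ht⟩
    refine ⟨N, hN.1, fun M h1 h2 h3 => ?_⟩
    exact le_antisymm (hN.2 ⟨h1, h2⟩ h3) h3
  refine ⟨N, hAN.1, ?_, hAN.2⟩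
  have key : ∀ g : G, g ∉ N → t * g⁻¹ ∈ N := by
    intro g hg
    by_contra hcon
    have h1 : t ∉ N ⊔ Subgroup.zpowers g := by
      intro h
      rcases mem_sup_zpowers N g (hAN.1 (hA g)) t h with h | h
      · exact hAN.2 h
      · exact hcon h
    have h2 := hmax (N ⊔ Subgroup.zpowers g) (hAN.1.trans le_sup_left) h1 le_sup_left
    apply hg
    rw [← h2]
    exact Subgroup.mem_sup_right (Subgroup.mem_zpowers g)
  rw [Subgroup.index_eq_two_iff]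
  refine ⟨t, fun b => ?_⟩
  by_cases hb : b ∈ N
  · right
    refine ⟨hb, fun h => hAN.2 ?_⟩
    have := N.mul_mem (N.inv_mem hb) h
    rwa [inv_mul_cancel_left] at this
  · left
    refine ⟨?_, hb⟩
    have h1 := key b hb
    have h2 : b * t = (t * b⁻¹) * b ^ 2 := by
      rw [pow_two, mul_assoc, inv_mul_cancel_left, mul_comm]
    rw [h2]
    exact N.mul_mem h1 (hAN.1 (hA b))

theorem s_GRP : S_GRP := by
  intro G _ _ c hN
  classical
  set D : Subgroup G := (powMonoidHom 2 : G →* G).range ⊔ Subgroup.zpowers c with hD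
  have hsq : ∀ g : G, g ^ 2 ∈ D := fun g => Subgroup.mem_sup_left ⟨g, rfl⟩
  have hc : c ∈ D := Subgroup.mem_sup_right (Subgroup.mem_zpowers c)
  have hform : ∀ g ∈ D, ∃ (ρ : G) (i : ℕ), g = ρ ^ 2 * c ^ i := by
    intro g hg
    obtain ⟨x, ⟨ρ, rfl⟩, z, hz, rfl⟩ := Subgroup.mem_sup.1 hg
    obtain ⟨i, rfl⟩ := (mem_powers_iff_mem_zpowers.2 hz)
    exact ⟨ρ, i, rfl⟩
  by_cases hDt : D = ⊤
  · refine ⟨1, fun σ => ?_⟩
    obtain ⟨ρ, i, h⟩ := hform σ (by rw [hDt]; exact Subgroup.mem_top _)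
    exact ⟨ρ, i, 0, by rw [pow_zero, mul_one]; exact h⟩
  · obtain ⟨σ₀, hσ₀⟩ : ∃ σ₀ : G, σ₀ ∉ D := by
      by_contra hcon
      push Not at hcon
      exact hDt ((Subgroup.eq_top_iff' D).2 hcon)
    refine ⟨σ₀, fun σ => ?_⟩
    have hmem : σ ∈ D ⊔ Subgroup.zpowers σ₀ := by
      by_contra hcon
      obtain ⟨N₁, h1, h2, h3⟩ := exists_index_two (D ⊔ Subgroup.zpowers σ₀)
        (fun g => Subgroup.mem_sup_left (hsq g)) σ hcon
      have hcon2 : σ₀ ∉ D ⊔ Subgroup.zpowers σ := by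
        intro h
        rcases mem_sup_zpowers D σ (hsq σ) σ₀ h with h | h
        · exact hσ₀ h
        · apply hcon
          have h4 : σ = (σ₀ * σ⁻¹)⁻¹ * σ₀ := by
            rw [mul_inv_rev, inv_inv, mul_assoc, inv_mul_cancel, mul_one]
          rw [h4]
          exact Subgroup.mul_mem _ (Subgroup.mem_sup_left (D.inv_mem h))
            (Subgroup.mem_sup_right (Subgroup.mem_zpowers σ₀))
      obtain ⟨N₂, g1, g2, g3⟩ := exists_index_two (D ⊔ Subgroup.zpowers σ)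
        (fun g => Subgroup.mem_sup_left (hsq g)) σ₀ hcon2
      have := hN N₁ N₂ h2 g2 (h1 (Subgroup.mem_sup_left hc)) (g1 (Subgroup.mem_sup_left hc))
      apply g3
      rw [← this]
      exact h1 (Subgroup.mem_sup_right (Subgroup.mem_zpowers σ₀))
    obtain ⟨d, hd, z, hz, rfl⟩ := Subgroup.mem_sup.1 hmem
    obtain ⟨j, rfl⟩ := (mem_powers_iff_mem_zpowers.2 hz)
    obtain ⟨ρ, i, rfl⟩ := hform d hd
    exact ⟨ρ, i, j, rfl⟩

end Pool.Agent.L7h8.SQ
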